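import Pool.Agent.helper19.MX.SpecD

/-! # Row mx:GEN (MP_a875de_ag): the genus of the elementary abelian covers of the line -/

namespace MX

open Pool.Agent.helper53.AU AN
open scoped Classical Topology IntermediateField
open Finset (range powerset Icc)

/-- automorphisms which agree on the generators are equal -/
theorem GEN_ext {k F : Type} [Field k] [Field F] [Algebra k F] {S : Set F}
    (hS : IntermediateField.adjoin k S = ⊤) (σ τ : F ≃ₐ[k] F) (h : ∀ z ∈ S, σ z = τ z) : σ = τ := by
  ext z
  have hz : z ∈ IntermediateField.adjoin k S := by rw [hS]; exact IntermediateField.mem_top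
  induction hz using IntermediateField.adjoin_induction with
  | mem x hx => exact h x hx
  | algebraMap c => simp
  | add x y _ _ hx hy => rw [map_add, map_add, hx, hy]
  | inv x _ hx => rw [map_inv₀, map_inv₀, hx]
  | mul x y _ _ hx hy => rw [map_mul, map_mul, hx, hy]

/-- elements fixed by generators of a group are fixed by the group -/
theorem GEN_fix {k F : Type} [Field k] [Field F] [Algebra k F] {S : Set (F ≃ₐ[k] F)} {z : F}
    (h : ∀ σ ∈ S, σ z = z) : ∀ σ ∈ Subgroup.closure S, σ z = z := by
  intro σ hσ
  induction hσ using Subgroup.closure_induction with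
  | mem x hx => exact h x hx
  | one => rfl
  | mul a b _ _ ha hb => rw [AlgEquiv.mul_apply, hb, ha]
  | inv a _ ha =>
    have h1 : a⁻¹ (a z) = z := by
      rw [← AlgEquiv.mul_apply, inv_mul_cancel, AlgEquiv.one_apply]
    rw [ha] at h1
    exact h1

theorem GEN_fixz {k F : Type} [Field k] [Field F] [Algebra k F] {s : F ≃ₐ[k] F} {z : F}
    (h : s z = z) : ∀ σ ∈ Subgroup.zpowers s, σ z = z := by
  intro σ hσ
  rw [Subgroup.zpowers_eq_closure] at hσ
  exact GEN_fix (fun σ' h' => by rw [Set.mem_singleton_iff] at h'; rw [h']; exact h) σ hσ

theorem GEN_cardz {G : Type} [Group G] (s : G) (h1 : s ≠ 1) (h2 : s * s = 1) :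
    Nat.card (Subgroup.zpowers s) = 2 ^ 1 := by
  rw [Nat.card_zpowers, pow_one]
  exact orderOf_eq_prime (by rw [pow_two]; exact h2) h1

theorem GEN_cardV {G : Type} [Group G] (s t : G) (hs : s ≠ 1) (ht : t ≠ 1) (hst : s ≠ t)
    (hs2 : s * s = 1) (ht2 : t * t = 1) (hc : s * t = t * s) :
    Nat.card (Subgroup.closure ({s, t} : Set G)) = 2 ^ 2 := by
  have hsi : s⁻¹ = s := inv_eq_of_mul_eq_one_left hs2
  have hti : t⁻¹ = t := inv_eq_of_mul_eq_one_left ht2
  have hst1 : s * t ≠ 1 := by
    intro h
    apply hst
    rw [← hti]
    exact eq_inv_of_mul_eq_one_left h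
  have hsts : s * t ≠ s := by
    intro h
    exact ht (mul_eq_left.1 h)
  have hstt : s * t ≠ t := by
    intro h
    exact hs (mul_eq_right.1 h)
  have h1 : ((Subgroup.closure ({s, t} : Set G) : Subgroup G) : Set G) = {1, s, t, s * t} := by
    apply Set.Subset.antisymm
    · intro x hx
      have hx' : x ∈ Subgroup.closure ({s, t} : Set G) := hx
      clear hx
      induction hx' using Subgroup.closure_induction with
      | mem x hx =>
        rcases hx with rfl | hx
        · simp
        · rw [Set.mem_singleton_iff] at hx
          subst hx
          simp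
      | one => simp
      | mul a b _ _ ha hb =>
        simp only [Set.mem_insert_iff, Set.mem_singleton_iff] at ha hb ⊢
        rcases ha with rfl | rfl | rfl | rfl
        · rw [one_mul]; exact hb
        · rcases hb with rfl | rfl | rfl | rfl
          · right; left; rw [mul_one]
          · left; exact hs2
          · right; right; right; rfl
          · right; right; left; rw [← mul_assoc, hs2, one_mul]
        · rcases hb with rfl | rfl | rfl | rfl
          · right; right; left; rw [mul_one]
          · right; right; right; exact hc.symm
          · left; exact ht2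
          · right; left; rw [hc, ← mul_assoc, ht2, one_mul]
        · rcases hb with rfl | rfl | rfl | rfl
          · right; right; right; rw [mul_one]
          · right; right; left; rw [hc, mul_assoc, hs2, mul_one]
          · right; left; rw [mul_assoc, ht2, mul_one]
          · left; rw [mul_assoc, hc, ← mul_assoc t t s, ht2, one_mul, hs2]
      | inv a _ ha =>
        simp only [Set.mem_insert_iff, Set.mem_singleton_iff] at ha ⊢
        rcases ha with rfl | rfl | rfl | rfl
        · left; exact inv_one
        · right; left; exact hsi
        · right; right; left; exact hti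
        · right; right; right; rw [mul_inv_rev, hsi, hti]; exact hc.symm
    · have ms : s ∈ Subgroup.closure ({s, t} : Set G) := Subgroup.subset_closure (by simp)
      have mt : t ∈ Subgroup.closure ({s, t} : Set G) := Subgroup.subset_closure (by simp)
      intro x hx
      simp only [Set.mem_insert_iff, Set.mem_singleton_iff] at hx
      rcases hx with rfl | rfl | rfl | rfl
      · exact one_mem _
      · exact ms
      · exact mt
      · exact mul_mem ms mt
  have h2 : Nat.card (Subgroup.closure ({s, t} : Set G)) = Set.ncard ({1, s, t, s * t} : Set G) := by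
    rw [← h1]
    rfl
  rw [h2]
  have h3 : ({1, s, t, s * t} : Set G) = (({1, s, t, s * t} : Finset G) : Set G) := by
    simp
  rw [h3, Set.ncard_coe_finset]
  rw [Finset.card_insert_of_notMem, Finset.card_insert_of_notMem, Finset.card_insert_of_notMem,
    Finset.card_singleton]
  · norm_num
  · intro h
    rw [Finset.mem_singleton] at h
    exact hstt h.symm
  · intro h
    rw [Finset.mem_insert, Finset.mem_singleton] at h
    rcases h with h | h
    · exact hst h
    · exact hsts h.symm
  · intro h
    rw [Finset.mem_insert, Finset.mem_insert, Finset.mem_singleton] at h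
    rcases h with h | h | h
    · exact hs h.symm
    · exact ht h.symm
    · exact hst1 h.symm

theorem GEN_congr {k : Type} [Field k] (r : ℕ) (f f' : ℕ → Polynomial k) (h : ∀ j < r, f j = f' j) :
    gAS r f = gAS r f' := by
  unfold gAS
  apply Finset.sum_congr rfl
  intro T hT
  have hT' : T ⊆ range r := Finset.mem_powerset.1 (Finset.mem_of_mem_erase hT)
  have h1 : ∑ j ∈ T, f j = ∑ j ∈ T, f' j :=
    Finset.sum_congr rfl (fun j hj => h j (Finset.mem_range.1 (hT' hj)))
  rw [h1]

theorem GEN_g0 {k : Type} [Field k] (f : ℕ → Polynomial k) : gAS 0 f = 0 := by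
  unfold gAS
  have h : (range 0).powerset.erase ∅ = ∅ := by decide
  rw [h, Finset.sum_empty]

theorem GEN_g1 {k : Type} [Field k] (f : ℕ → Polynomial k) :
    gAS 1 f = ((f 0).natDegree - 1) / 2 := by
  unfold gAS
  have h : (range 1).powerset.erase ∅ = {{0}} := by decide
  rw [h, Finset.sum_singleton, Finset.sum_singleton]

theorem GEN (hQR2 : QR2_stmt) (hQE1 : QE1_stmt) (hBAS : BAS_stmt) (hAUT : AUT_stmt)
    (hKL4 : KL4_stmt) (hFIH : FIH_stmt) (hACH : ACH_stmt) (hGCM : GCM_stmt) (hGE0 : GE0_stmt)
    (hGE1 : GE1_stmt) : GEN_stmt := by
  intro r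
  induction r using Nat.strong_induction_on with
  | _ r ih =>
    intro k F _ _ _ _ _ x y f hAS
    rcases r with _ | _ | r
    · rw [GEN_g0]
      exact hGE0 k F x y f hAS
    · rw [GEN_g1]
      exact hGE1 k F x y f hAS
    · have hAS2 : AS k F x (r + 2) y f := hAS
      haveI : CharP F 2 := charP_of_injective_algebraMap (algebraMap k F).injective 2
      have hperf : ∀ c : k, ∃ c' : k, c' ^ 2 = c := fun c =>
        IsAlgClosed.exists_pow_nat_eq c (by norm_num)
      obtain ⟨s, hsx, hsy, hss⟩ := hAUT k F hperf x (r + 2) y f hAS2 {r + 1}
      obtain ⟨t, htx, hty, htt⟩ := hAUT k F hperf x (r + 2) y f hAS2 {r}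
      -- values
      have s1 : ∀ j < r + 1, s (y j) = y j := by
        intro j hj
        rw [hsy j (by omega), if_neg (by rw [Finset.mem_singleton]; omega), add_zero]
      have s2 : s (y (r + 1)) = y (r + 1) + 1 := by
        rw [hsy (r + 1) (by omega), if_pos (by rw [Finset.mem_singleton])]
      have t1 : ∀ j < r, t (y j) = y j := by
        intro j hj
        rw [hty j (by omega), if_neg (by rw [Finset.mem_singleton]; omega), add_zero]
      have t2 : t (y r) = y r + 1 := by
        rw [hty r (by omega), if_pos (by rw [Finset.mem_singleton])]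
      have t3 : t (y (r + 1)) = y (r + 1) := by
        rw [hty (r + 1) (by omega), if_neg (by rw [Finset.mem_singleton]; omega), add_zero]
      have hext : ∀ σ τ : F ≃ₐ[k] F, σ x = τ x → (∀ j < r + 2, σ (y j) = τ (y j)) → σ = τ := by
        intro σ τ h0 h1
        apply GEN_ext hAS2.gen σ τ
        rintro z (hz | ⟨j, hj, rfl⟩)
        · rw [Set.mem_singleton_iff] at hz
          rw [hz, h0]
        · exact h1 j hj
      have hss' : s * s = 1 := by
        ext z
        rw [AlgEquiv.mul_apply, hss, AlgEquiv.one_apply]
      have htt' : t * t = 1 := by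
        ext z
        rw [AlgEquiv.mul_apply, htt, AlgEquiv.one_apply]
      have hone : ∀ z : F, z + 1 ≠ z := by
        intro z h
        exact one_ne_zero (add_eq_left.1 h)
      have hs : s ≠ 1 := by
        intro h
        rw [h, AlgEquiv.one_apply] at s2
        exact hone _ s2.symm
      have ht : t ≠ 1 := by
        intro h
        rw [h, AlgEquiv.one_apply] at t2
        exact hone _ t2.symm
      have hst : s ≠ t := by
        intro h
        rw [h, t3] at s2
        exact hone _ s2.symm
      have st1 : ∀ j < r, (s * t) (y j) = y j := by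
        intro j hj
        rw [AlgEquiv.mul_apply, t1 j hj, s1 j (by omega)]
      have st2 : (s * t) (y r) = y r + 1 := by
        rw [AlgEquiv.mul_apply, t2, map_add, map_one, s1 r (by omega)]
      have st3 : (s * t) (y (r + 1)) = y (r + 1) + 1 := by
        rw [AlgEquiv.mul_apply, t3, s2]
      have hc : s * t = t * s := by
        apply hext
        · rw [AlgEquiv.mul_apply, AlgEquiv.mul_apply, htx, hsx, htx]
        · intro j hj
          rcases Nat.lt_trichotomy j r with h | h | h
          · rw [st1 j h, AlgEquiv.mul_apply, s1 j (by omega), t1 j h]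
          · rw [h, st2, AlgEquiv.mul_apply, s1 r (by omega), t2]
          · have h' : j = r + 1 := by omega
            rw [h', st3, AlgEquiv.mul_apply, s2, map_add, map_one, t3]
      have hst1 : s * t ≠ 1 := by
        intro h
        rw [h, AlgEquiv.one_apply] at st2
        exact hone _ st2.symm
      have hst2 : (s * t) * (s * t) = 1 := by
        rw [mul_assoc, hc, ← mul_assoc t t s, htt', one_mul, hss']
      -- the field is a function field
      obtain ⟨hFF, -, -⟩ := hBAS k F hperf x (r + 2) y f hAS2
      obtain ⟨g, hg⟩ := hQR2 k F hFF
      obtain ⟨hA1, hA2⟩ := hACH k F x r y f hAS2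
      -- fixed field of s
      have gs : IsGenus k (IntermediateField.fixedField (Subgroup.zpowers s)) (gAS (r + 1) f) := by
        obtain ⟨x', y', -, hAS'⟩ := hFIH k F hperf x (r + 1) 1 y f hAS2 (Subgroup.zpowers s)
          (GEN_cardz s hs hss')
          (fun σ hσ => ⟨GEN_fixz hsx σ hσ, fun j hj => GEN_fixz (s1 j hj) σ hσ⟩)
        exact ih (r + 1) (by omega) k _ x' y' f hAS'
      have gt : IsGenus k (IntermediateField.fixedField (Subgroup.zpowers t))
          (gAS (r + 1) (fun j => if j = r then f (r + 1) else f j)) := by
        obtain ⟨x', y', -, hAS'⟩ := hFIH k F hperf x (r + 1) 1 _ _ hA1 (Subgroup.zpowers t)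
          (GEN_cardz t ht htt')
          (fun σ hσ => ⟨GEN_fixz htx σ hσ, fun j hj => by
            by_cases h : j = r
            · simp only [if_pos h]
              exact GEN_fixz t3 σ hσ
            · have h' : j ≠ r + 1 := by omega
              simp only [if_neg h, if_neg h']
              exact GEN_fixz (t1 j (by omega)) σ hσ⟩)
        have h1 := ih (r + 1) (by omega) k _ x' y' _ hAS'
        rw [GEN_congr (r + 1) (fun j => if j = r then f (r + 1) else f j)
          (fun j => if j = r then f (r + 1) else if j = r + 1 then f r else f j) (by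
            intro j hj
            by_cases h : j = r
            · simp only [if_pos h]
            · have h' : j ≠ r + 1 := by omega
              simp only [if_neg h, if_neg h'])]
        exact h1
      have gu : IsGenus k (IntermediateField.fixedField (Subgroup.zpowers (s * t)))
          (gAS (r + 1) (fun j => if j = r then f r + f (r + 1) else f j)) := by
        obtain ⟨x', y', -, hAS'⟩ := hFIH k F hperf x (r + 1) 1 _ _ hA2 (Subgroup.zpowers (s * t))
          (GEN_cardz (s * t) hst1 hst2)
          (fun σ hσ => ⟨GEN_fixz (by rw [AlgEquiv.mul_apply, htx, hsx]) σ hσ, fun j hj => by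
            by_cases h : j = r
            · simp only [if_pos h]
              apply GEN_fixz _ σ hσ
              rw [map_add, st2, st3]
              have h2 : (1 : F) + 1 = 0 := CharTwo.add_self_eq_zero 1
              calc y r + 1 + (y (r + 1) + 1) = y r + y (r + 1) + (1 + 1) := by ring
                _ = y r + y (r + 1) := by rw [h2, add_zero]
            · simp only [if_neg h]
              exact GEN_fixz (st1 j (by omega)) σ hσ⟩)
        exact ih (r + 1) (by omega) k _ x' y' _ hAS'
      have gV : IsGenus k (IntermediateField.fixedField (Subgroup.closure {s, t})) (gAS r f) := by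
        obtain ⟨x', y', -, hAS'⟩ := hFIH k F hperf x r 2 y f hAS2 (Subgroup.closure {s, t})
          (GEN_cardV s t hs ht hst hss' htt' hc)
          (fun σ hσ => ⟨GEN_fix (by
            rintro σ' (rfl | h')
            · exact hsx
            · rw [Set.mem_singleton_iff] at h'
              rw [h']
              exact htx) σ hσ, fun j hj => GEN_fix (by
            rintro σ' (rfl | h')
            · exact s1 j (by omega)
            · rw [Set.mem_singleton_iff] at h'
              rw [h']
              exact t1 j hj) σ hσ⟩)
        exact ih r (by omega) k _ x' y' f hAS'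
      have hk := hKL4 k F hFF s t hs ht hst hss' htt' hc g _ _ _ _ hg gs gt gu gV
      have hcm := hGCM k r f
      have he : g = gAS (r + 2) f := by omega
      have hgoal : gAS (r + 1 + 1) f = gAS (r + 2) f := rfl
      rw [hgoal, ← he]
      exact hg

end MX
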